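import Pool.Agent.Helper81.LT.Defs
import Pool.Agent.Helper2.AG.Sc
import Pool.Agent.Helper98.AG.Small

/-!
Project LT (MP_b8862a_ag), blocks N0a, N0b: a Weyl conjugate of the grading element is dominant; rescaling.
-/

set_option linter.unusedSectionVars false

open Module PF TF PW AG

namespace LT

section euclid
variable {E : Type*} [NormedAddCommGroup E] [InnerProductSpace ℝ E] {Φ X : Finset E} {n s : ℕ} {l y v : E} {c : ℝ}

theorem refl_inner (a x z : E) : (inner ℝ (x - co a x • a) z : ℝ) = inner ℝ x (z - co a z • a) := by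
  rw [inner_sub_left, inner_sub_right, inner_smul_left, inner_smul_right]
  simp only [conj_trivial]
  unfold co
  rw [real_inner_comm a z]
  ring

/-- the reflection of the grading element -/
theorem d3_refl (h : AG.D3 Φ X n s l y v) {a : E} (ha : a ∈ Φ) : AG.D3 Φ X n s l (y - co a y • a) v := by
  have hna := h.wd.rs.neg_mem ha
  have ha0 : (inner ℝ a a : ℝ) ≠ 0 := inner_self_ne_zero.2 (h.wd.rs.ne_zero a ha)
  refine ⟨h.wd, ⟨h.inn.rs, h.inn.sat, h.inn.card_le, h.inn.l_mem, h.inn.l_ne, h.inn.l_max, ?_, ?_, ?_⟩, ?_, h.s_pos,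
    h.h_pos, h.adj⟩
  · intro b hb
    obtain ⟨k, hk⟩ := h.inn.lev _ (h.inn.rs.refl a ha b hb)
    refine ⟨k, ?_⟩
    rw [← refl_inner, hk]
  · exact Submodule.sub_mem _ h.inn.y_mem (Submodule.smul_mem _ _ (Submodule.subset_span (Finset.mem_coe.2 ha)))
  · rw [← h.inn.idt]
    congr 1
    rw [refl_inner]
    congr 1
    have h1 : co a (y - co a y • a) = -co a y := by
      unfold co
      rw [inner_sub_left, inner_smul_left]
      simp only [conj_trivial]
      field_simp
      ring
    rw [h1]
    module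
  · intro x hx
    have h1 := Sat.refl27 h.inn.sat ha hna hx
    rcases h.lev _ h1 with h2 | h2 | h2
    · left; rw [← refl_inner, h2]
    · right; left; rw [← refl_inner, h2]
    · right; right; rw [← refl_inner, h2]

/-- some weight has a level different from zero -/
theorem exists_lev (h : AG.D3 Φ X n s l y v) : ∃ x ∈ X, (inner ℝ x y : ℝ) ≠ 0 := by
  classical
  obtain ⟨b, hb, hby⟩ := h.exists_root
  have hS : (Φ.filter fun b => ∃ x ∈ X, (inner ℝ x b : ℝ) ≠ 0) = Φ := by
    refine h.wd.rs.irr _ (Finset.filter_subset _ _) ?_ ?_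
    · by_contra hcon
      rw [Finset.not_nonempty_iff_eq_empty, Finset.filter_eq_empty_iff] at hcon
      apply h.wd.l_ne
      have h1 : ∀ z ∈ Submodule.span ℝ (Φ : Set E), (inner ℝ l z : ℝ) = 0 := by
        intro z hz
        induction hz using Submodule.span_induction with
        | mem x hx =>
          by_contra h2
          exact hcon hx ⟨l, h.wd.l_mem, h2⟩
        | zero => simp
        | add x z _ _ h1 h2 => rw [inner_add_right, h1, h2, add_zero]
        | smul k x _ h1 => rw [inner_smul_right, h1, mul_zero]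
      exact inner_self_eq_zero.1 (h1 l (Sat.span27 h.wd.sat h.wd.l_mem))
    · intro a ha c hc hcS
      rw [Finset.mem_filter] at ha hcS
      obtain ⟨ha, x, hx, hxa⟩ := ha
      have h0 : ∀ x ∈ X, (inner ℝ x c : ℝ) = 0 := by
        intro x hx
        by_contra h2
        exact hcS ⟨hc, x, hx, h2⟩
      have h1 := h0 _ (Sat.refl27 h.wd.sat ha (h.wd.rs.neg_mem ha) hx)
      rw [inner_sub_left, inner_smul_left, h0 x hx] at h1
      simp only [conj_trivial, zero_sub, neg_eq_zero, mul_eq_zero] at h1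
      rcases h1 with h1 | h1
      · exfalso
        unfold co at h1
        have h3 : (inner ℝ a a : ℝ) ≠ 0 := inner_self_ne_zero.2 (h.wd.rs.ne_zero a ha)
        rw [div_eq_zero_iff] at h1
        rcases h1 with h1 | h1
        · apply hxa
          linarith
        · exact h3 h1
      · exact h1
  rw [← hS, Finset.mem_filter] at hb
  obtain ⟨hb, x, hx, hxb⟩ := hb
  by_contra hcon
  push Not at hcon
  have h1 := hcon _ (Sat.refl27 h.wd.sat hb (h.wd.rs.neg_mem hb) hx)
  rw [inner_sub_left, inner_smul_left, hcon x hx] at h1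
  simp only [conj_trivial, zero_sub, neg_eq_zero, mul_eq_zero] at h1
  rcases h1 with h1 | h1
  · unfold co at h1
    have h3 : (inner ℝ b b : ℝ) ≠ 0 := inner_self_ne_zero.2 (h.wd.rs.ne_zero b hb)
    rw [div_eq_zero_iff] at h1
    rcases h1 with h1 | h1
    · apply hxb
      linarith
    · exact h3 h1
  · exact hby h1

/-- the product with the sum of the positive roots is an integer -/
theorem int_v (h : AG.D3 Φ X n s l y v) : ∃ k : ℤ, (inner ℝ v y : ℝ) = k := by
  classical
  rw [h.wd.v_eq, sum_inner]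
  have h1 : ∀ a ∈ Ps Φ v, ∃ k : ℤ, (inner ℝ a y : ℝ) = k := fun a ha => h.inn.lev a (Finset.mem_filter.1 ha).1
  choose! k hk using h1
  exact ⟨∑ a ∈ Ps Φ v, k a, by rw [Finset.sum_congr rfl hk]; push_cast; rfl⟩

/-- BLOCK N0a: a Weyl conjugate of `y` is dominant -/
theorem exists_dt (h : AG.D3 Φ X n s l y v) (ht : Top Φ X l v) (hp : Par Φ l v) : ∃ y', Dt Φ X n s l y' v := by
  classical
  obtain ⟨k0, hk0⟩ := int_v h
  obtain ⟨m, ⟨y', hy', hyy, hm⟩, hmax⟩ := Int.exists_greatest_of_bdd
    (P := fun k : ℤ => ∃ y', AG.D3 Φ X n s l y' v ∧ ‖y'‖ = ‖y‖ ∧ (inner ℝ v y' : ℝ) = k)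
    ⟨⌈‖v‖ * ‖y‖⌉, fun k ⟨y', _, h2, h3⟩ => by
      have h4 := real_inner_le_norm v y'
      rw [h3, h2] at h4
      exact_mod_cast h4.trans (Int.le_ceil _)⟩ ⟨k0, y, h, rfl, hk0⟩
  have hdom : ∀ a ∈ Ps Φ v, 0 ≤ (inner ℝ y' a : ℝ) := by
    intro a ha
    by_contra hneg
    push Not at hneg
    obtain ⟨ha1, ha2⟩ := Finset.mem_filter.1 ha
    have h1 := d3_refl hy' ha1
    obtain ⟨k1, hk1⟩ := int_v h1
    have haa : (0 : ℝ) < inner ℝ a a := real_inner_self_pos.2 (h.wd.rs.ne_zero a ha1)
    have h2 := hmax k1 ⟨_, h1, by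
      rw [← hyy, ← sq_eq_sq₀ (norm_nonneg _) (norm_nonneg _), ← real_inner_self_eq_norm_sq, ← real_inner_self_eq_norm_sq,
        refl_inner]
      congr 1
      have h3 : co a (y' - co a y' • a) = -co a y' := by
        unfold co
        rw [inner_sub_left, inner_smul_left]
        simp only [conj_trivial]
        field_simp
        ring
      rw [h3]
      module, hk1⟩
    have h3 : (k1 : ℝ) ≤ m := by exact_mod_cast h2
    rw [← hk1, ← hm, inner_sub_right, inner_smul_right] at h3
    have h4 : co a y' < 0 := by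
      unfold co
      exact div_neg_of_neg_of_pos (by linarith) haa
    have h5 : co a y' * (inner ℝ v a : ℝ) < 0 := mul_neg_of_neg_of_pos h4 ha2
    linarith
  have hly : (inner ℝ l y' : ℝ) = 1 := by
    have h1 := ht y' hdom
    obtain ⟨x, hx, hx0⟩ := exists_lev hy'
    have h2 := h1 x hx
    have h3 := h1 (-x) (h.wd.sat.neg x hx)
    rw [inner_neg_left] at h3
    rcases hy'.lev l h.wd.l_mem with h4 | h4 | h4
    · exfalso
      rcases hy'.lev x hx with h5 | h5 | h5 <;> rw [h5] at h2 h3 <;> linarith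
    · exfalso
      rcases hy'.lev x hx with h5 | h5 | h5
      · rw [h5] at h3; linarith
      · exact hx0 h5
      · rw [h5] at h2; linarith
    · exact h4
  exact ⟨y', { hy' with top := ht, par := hp, ydom := hdom, ly := hly }⟩

/-- BLOCK N0b -/
theorem Dt.sc (h : Dt Φ X n s l y v) (hc : 0 < c) : Dt (PF.sc c Φ) (PF.sc c X) n s (c • l) (c⁻¹ • y) (c • v) := by
  classical
  have hcc : (0 : ℝ) < c * c := mul_pos hc hc
  refine { h.toD3.sc hc with top := ?_, par := ?_, ydom := ?_, ly := ?_ }
  · intro z hz x hx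
    obtain ⟨x', hx', rfl⟩ := mem_sc.1 hx
    rw [inner_smul_left, inner_smul_left]
    simp only [conj_trivial]
    refine mul_le_mul_of_nonneg_left (h.top z ?_ x' hx') hc.le
    intro a ha
    have h1 := hz (c • a) (by rw [Ps_sc hc]; exact (smul_mem_sc hc).2 ha)
    rw [inner_smul_right] at h1
    exact nonneg_of_mul_nonneg_right h1 hc
  · obtain ⟨k, hk⟩ := h.par
    refine ⟨k, ?_⟩
    rw [Ps_sc hc, PF.sc, Finset.sum_image (fun x _ y _ h => smul_inj' hc h), ← hk]
    refine Finset.sum_congr rfl fun a _ => ?_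
    unfold co
    rw [inner_smul_left, inner_smul_right, inner_smul_left, inner_smul_right]
    simp only [conj_trivial]
    rw [← mul_assoc c c, ← mul_assoc c c, mul_left_comm, mul_div_mul_left _ _ hcc.ne']
  · intro a ha
    rw [Ps_sc hc] at ha
    obtain ⟨a', ha', rfl⟩ := mem_sc.1 ha
    rw [inner_smul_left, inner_smul_right]
    simp only [conj_trivial]
    exact mul_nonneg (inv_pos.2 hc).le (mul_nonneg hc.le (h.ydom a' ha'))
  · rw [inner_smul_left, inner_smul_right, h.ly]
    simp only [conj_trivial]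
    field_simp

end euclid

end LT
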