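import Pool.Agent.Helper2.AG.Par
import Pool.Agent.Helper81.LT.Defs

/-!
Project LT (MP_b8862a_ag), stage 2 of AG, block L1: the Euclidean data with the highest weight and the parity.
-/

set_option linter.unusedSectionVars false
set_option linter.unusedVariables false

open Module LieModule LieAlgebra LieAlgebra.IsKilling AddMonoidAlgebra MTP.MF PF PF.W PF.L PF.CC TF TF.L PW

namespace LT

variable {K : Type*} [Field K] [CharZero K] [IsAlgClosed K]
  {L : Type*} [LieRing L] [LieAlgebra K L] [FiniteDimensional K L] [IsKilling K L]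
  {H : LieSubalgebra K L} [H.IsCartanSubalgebra]
  {V : Type*} [AddCommGroup V] [Module K V] [FiniteDimensional K V]
  [LieRingModule L V] [LieModule K L V] {I : Type*} [Fintype I] {ω : LinearMap.BilinForm K V}

/-- a weight below the top weight is the top weight minus a combination of positive roots -/
theorem vec_below (B : WB (V := V) H I) {b : (rootSystem H).Base} {t i : I} (h : Below b (B.w t) (B.w i)) :
    ∃ κ : H.root → ℕ, vec (PF.CC.wt B i) = vec (PF.CC.wt B t) -
      ∑ j ∈ b.support, (κ j : ℝ) • vec (PF.CC.rt (rootSystem H) j) := by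
  obtain ⟨κ, hκ⟩ := h
  refine ⟨κ, ?_⟩
  ext β
  have h1 := congrArg (fun μ : Dual K H => μ (coroot β.1)) hκ
  simp only [LinearMap.sub_apply, LinearMap.sum_apply, LinearMap.smul_apply, smul_eq_mul] at h1
  rw [wt_spec, wt_spec] at h1
  have h2 : ∀ j : H.root, (rootSystem H).root j (coroot β.1) = (PF.CC.rt (rootSystem H) j β : K) := fun j => root_spec j β
  rw [Finset.sum_congr rfl fun j _ => by rw [h2 j]] at h1
  have h3 : (PF.CC.wt B i β : ℤ) = PF.CC.wt B t β - ∑ j ∈ b.support, (κ j : ℤ) * PF.CC.rt (rootSystem H) j β := by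
    have h4 : ((PF.CC.wt B i β : ℤ) : K) =
        ((PF.CC.wt B t β - ∑ j ∈ b.support, (κ j : ℤ) * PF.CC.rt (rootSystem H) j β : ℤ) : K) := by
      rw [h1]
      push_cast
      rfl
    exact_mod_cast h4
  simp only [WithLp.ofLp_sub, WithLp.ofLp_sum, WithLp.ofLp_smul, Pi.sub_apply, Finset.sum_apply, Pi.smul_apply,
    smul_eq_mul, vec_apply]
  rw [h3]
  push_cast
  rfl

/-- **The data.** -/
theorem exists_d3_top (B : WB (V := V) H I) [Nonempty I] [Nonempty H.root] [(rootSystem H).IsIrreducible] [IsSimple K L]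
    (hirr : ∀ W : Submodule K V, (∀ x : L, ∀ u ∈ W, ⁅x, u⁆ ∈ W) → W = ⊥ ∨ W = ⊤)
    (hfaith : ∀ x : L, (∀ u : V, ⁅x, u⁆ = 0) → x = 0)
    (hnd : ω.Nondegenerate) (hsk : ∀ (x : L) (u v : V), ω ⁅x, u⁆ v = - ω u ⁅x, v⁆)
    {y : H} (a : I → ℤ) (ha : ∀ i, B.w i y = (a i : K)) (ha3 : ∀ i, a i = -1 ∨ a i = 0 ∨ a i = 1) {s : ℕ} (hs : 0 < s)
    (h1 : Fintype.card {i // a i = 1} = s) (h2 : Fintype.card {i // a i = -1} = s) (h3 : 2 * s < Fintype.card I) :
    ∃ l y' v : EuclideanSpace ℝ H.root, AG.D3 (PF.CC.Ph (rootSystem H)) (PF.CC.Xw B) (Fintype.card I) s l y' v ∧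
      Top (PF.CC.Ph (rootSystem H)) (PF.CC.Xw B) l v ∧ (ω.IsSymm → Par (PF.CC.Ph (rootSystem H)) l v) := by
  classical
  have hy : y ≠ 0 := by
    rintro rfl
    have h4 : 0 < Fintype.card {i // a i = 1} := by omega
    obtain ⟨i, hi⟩ := Fintype.card_pos_iff.1 h4
    have h5 := ha i
    rw [map_zero, hi] at h5
    norm_num at h5
  have hT : ((8 * s : ℕ) : ℤ) = ∑ i, (2 * a i) ^ 2 := by
    have h4 : ∀ i, (2 * a i) ^ 2 = (if a i = 1 then 4 else 0) + (if a i = -1 then 4 else 0) := by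
      intro i
      rcases ha3 i with h | h | h <;> rw [h] <;> norm_num
    rw [Finset.sum_congr rfl fun i _ => h4 i, Finset.sum_add_distrib, ← Finset.sum_filter, ← Finset.sum_filter,
      Finset.sum_const, Finset.sum_const, ← Fintype.card_subtype, ← Fintype.card_subtype, h1, h2]
    push_cast
    ring
  obtain ⟨b⟩ : Nonempty (rootSystem H).Base := (rootSystem H).nonempty_base
  obtain ⟨t, y', hin, -, hrank, htb, hlev⟩ := AG.exists_in2_b b B hirr hfaith hnd hsk hy (fun i => 2 * a i)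
    (fun i => by rw [ha i]; push_cast; ring) (fun i j => ⟨a i - a j, by ring⟩) hT
  obtain ⟨t', v, htb', hPs, hwd⟩ := AG.exists_wd_b b B hirr hfaith hnd hsk
  have htt : PF.CC.vec (PF.CC.wt B t') = PF.CC.vec (PF.CC.wt B t) := by
    have e1 : B.w t' = B.w t := Below.antisymm (htb t') (htb' t)
    congr 1
    funext β
    have e2 := PF.CC.wt_spec B t' β
    rw [e1, PF.CC.wt_spec] at e2
    exact_mod_cast e2.symm
  rw [htt] at hwd
  refine ⟨PF.CC.vec (PF.CC.wt B t), y', v, ⟨hwd, hin, ?_, hs, h3, ?_⟩, ?_, ?_⟩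
  · intro x hx
    obtain ⟨i, rfl⟩ := (PF.CC.mem_Xw B).1 hx
    have h4 := hlev i
    have h5 : (inner ℝ (PF.CC.vec (PF.CC.wt B i)) y' : ℝ) = (a i : ℝ) := by
      rw [h4]
      push_cast
      ring
    rw [h5]
    rcases ha3 i with h | h | h <;> rw [h] <;> norm_num
  · intro h4 h5
    rw [card_adj B hirr hfaith b htb h4 h5, hrank, TF.card_Ph, add_comm (finrank K H), TF.L.card_root_eq H]
  · intro z hz x hx
    obtain ⟨i, rfl⟩ := (PF.CC.mem_Xw B).1 hx
    obtain ⟨κ, hκ⟩ := vec_below B (htb i)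
    rw [hκ, inner_sub_left, sum_inner]
    have h4 : 0 ≤ ∑ j ∈ b.support, (inner ℝ ((κ j : ℝ) • vec (PF.CC.rt (rootSystem H) j)) z : ℝ) := by
      refine Finset.sum_nonneg fun j hj => ?_
      rw [inner_smul_left, real_inner_comm]
      refine mul_nonneg (by simp) (hz _ ?_)
      rw [hPs]
      refine Finset.mem_image.2 ⟨j, ?_, rfl⟩
      have := RootPairing.Base.isPos_of_mem_support hj
      simpa [pos] using this
    linarith
  · intro hsymm
    obtain ⟨d, hd, hev⟩ := AG.even_rho B hirr hnd hsymm hsk b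
    obtain ⟨k, hk⟩ := hev t
    refine ⟨k, ?_⟩
    have hinj : Set.InjOn (fun α : H.root => vec (PF.CC.rt (rootSystem H) α)) (pos b : Set H.root) :=
      fun α _ β _ h => rt_inj (rootSystem H) (vec_inj h)
    rw [hPs, Finset.sum_image hinj, Finset.sum_congr rfl fun α _ => co_vec _ (wt_wt B t) α]
    have h4 : ((∑ α ∈ pos b, PF.CC.wt B t α : ℤ) : K) = ((2 * k : ℤ) : K) := by
      have h5 : B.w t (rho2 b) = ((∑ α ∈ pos b, PF.CC.wt B t α : ℤ) : K) := by
        rw [rho2, map_sum, Int.cast_sum]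
        exact Finset.sum_congr rfl fun α _ => PF.CC.wt_spec B t α
      rw [← h5, hd t, hk]
      push_cast
      ring
    have h5 : (∑ α ∈ pos b, PF.CC.wt B t α : ℤ) = 2 * k := by exact_mod_cast h4
    exact_mod_cast h5

end LT
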