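import Pool.Agent.Helper2.LT.Core
import Pool.Agent.Helper14.TF.CoreT
import Pool.Agent.Helper2.HY.Main
import Pool.Agent.Helper55.UV.TwoM

/-!
Project LT (MP_b8862a_ag), stage 2 of AG: the Hodge side, even weight, symmetric forms only.
-/

set_option linter.unusedSectionVars false

open Matrix Module MH

attribute [local instance 100] LieRing.ofAssociativeRing

namespace LT

/-- As `MH.CoreL`, even weight `2 m`, symmetric forms only. -/
def CoreS (n : Type*) [Fintype n] (m : ℤ) (r : ℤ → ℕ) (S : Finset ℤ) : Prop :=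
  ∀ ω : LinearMap.BilinForm ℂ (n → ℂ), ω.IsSymm → ω.Nondegenerate →
    ∀ L : LieSubalgebra ℂ (Module.End ℂ (n → ℂ)), LieAlgebra.IsSimple ℂ L →
    (∀ W : Submodule ℂ (n → ℂ), (∀ x ∈ L, ∀ u ∈ W, x u ∈ W) → W = ⊥ ∨ W = ⊤) →
    (∀ x ∈ L, ∀ u v, ω (x u) v = -ω u (x v)) →
    ∀ h ∈ L, (⨆ p ∈ S, Module.End.eigenspace h ((p - m : ℤ) : ℂ)) = ⊤ →
      (∀ p ∈ S, finrank ℂ (Module.End.eigenspace h ((p - m : ℤ) : ℂ)) = r p) →
      ∀ x : Module.End ℂ (n → ℂ), (∀ u v, ω (x u) v = -ω u (x v)) → x ∈ L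

theorem CoreS.core {n : Type*} [Fintype n] [DecidableEq n] {m : ℤ} {r : ℤ → ℕ} {S : Finset ℤ} (core : CoreS n m r S)
    (h2 : 2 ≤ Fintype.card n) (hS : ∀ p, p ∉ S → r p = 0) : MH.Core n m r := by
  intro Q' Qi hQ hQ1 hQ2 L hbr hirr hsk hs h E Λ hh hE hint hr X hX
  have hsa : (Matrix.toBilin' Q').IsSymm := form_symm98 hQ
  have hE2 : ∀ p : ℤ, Module.End.eigenspace (Matrix.toLin' h) ((p - m : ℤ) : ℂ) =
      Module.End.eigenspace (Matrix.toLin' h) ((((p - m : ℤ) : ℝ)) : ℂ) := by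
    intro p
    congr 1
  have hsup : (⨆ p ∈ S, Module.End.eigenspace (Matrix.toLin' h) ((p - m : ℤ) : ℂ)) = ⊤ := by
    rw [eq_top_iff]
    intro v _
    have h3 : v = ∑ ν ∈ Λ, E ν *ᵥ v := by
      rw [← Matrix.sum_mulVec, hE.sum, Matrix.one_mulVec]
    rw [h3]
    refine Submodule.sum_mem _ fun ν _ => ?_
    by_cases hν : E ν = 0
    · rw [hν, Matrix.zero_mulVec]
      exact Submodule.zero_mem _
    obtain ⟨p, hp⟩ := hint ν hν
    have hpS : p ∈ S := by
      by_contra hcon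
      have h5 := hS p hcon
      rw [← hr p, ← hp] at h5
      apply hν
      have h6 : (E ν).rank = 0 := h5
      rw [Matrix.rank, Submodule.finrank_eq_zero, LinearMap.range_eq_bot] at h6
      exact (LinearEquiv.map_eq_zero_iff Matrix.toLin').1 h6
    have h4 : E ν *ᵥ v ∈ Module.End.eigenspace (Matrix.toLin' h) ((p - m : ℤ) : ℂ) := by
      rw [hE2, ← hp, hE.eig98]
      exact ⟨v, by rw [Matrix.toLin'_apply]⟩
    exact Submodule.mem_iSup_of_mem p (Submodule.mem_iSup_of_mem hpS h4)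
  have hrk : ∀ p ∈ S, finrank ℂ (Module.End.eigenspace (Matrix.toLin' h) ((p - m : ℤ) : ℂ)) = r p := by
    intro p _
    rw [hE2, hE.finrank_eig98, hr]
  have h4 : Matrix.toLin' X ∈ lieOf L hbr := by
    refine core (Matrix.toBilin' Q') hsa (form_nondeg98 hQ1) (lieOf L hbr) (lieOf_simple hirr h2 hs)
      (lieOf_irr hirr) (lieOf_sk hsk) _ (toLin_mem_lieOf hh) hsup hrk _ fun u v => ?_
    rw [Matrix.toLin'_apply, Matrix.toLin'_apply]
    exact skew_iff98.1 hX u v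
  rw [mem_lieOf, LinearMap.toMatrix'_toLin'] at h4
  exact h4

/-- `CoreS` for three Hodge numbers `s, h, s` outside a list. -/
theorem coreS_lt (n : Type) [Fintype n] {a b c : ℤ} (hab : a + b = 2 * c) (hca : c < a) {r : ℤ → ℕ}
    {S : Finset ℤ} (hS : ∀ p, p ∉ S → r p = 0) (hr : ∀ p, p ≠ a → p ≠ c → p ≠ b → r p = 0) (hba : r b = r a)
    (hs : 0 < r a) (hh : 0 < r c) (hn : Fintype.card n = 2 * r a + r c) (h5 : 5 ≤ Fintype.card n)
    (hE : ∀ {ι : Type} [Fintype ι] (Φ X : Finset (EuclideanSpace ℝ ι)) (l y v : EuclideanSpace ℝ ι),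
      AG.D3 Φ X (Fintype.card n) (r a) l y v → Top Φ X l v → Par Φ l v → PF.TypeB Φ X ∨ PF.TypeD Φ X) :
    CoreS n c r S := by
  classical
  intro ω hω hnd L hL hirr hsk h hhL hsup hrk x hx'
  have hcard : finrank ℂ (n → ℂ) = Fintype.card n := Module.finrank_fintype_fun_eq_card ℂ
  obtain ⟨δ, hδ⟩ : ∃ δ : ℤ, δ = a - c := ⟨_, rfl⟩
  have hδ0 : 0 < δ := by omega
  have hδC : (δ : ℂ) ≠ 0 := by exact_mod_cast hδ0.ne'
  have key : ∀ k : ℤ, Module.End.eigenspace ((δ : ℂ)⁻¹ • h) (k : ℂ) =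
      Module.End.eigenspace h ((δ * k : ℤ) : ℂ) := by
    intro k
    ext v
    rw [Module.End.mem_eigenspace_iff, Module.End.mem_eigenspace_iff, LinearMap.smul_apply]
    constructor
    · intro h1
      have h2 := congrArg (fun u => (δ : ℂ) • u) h1
      simp only [smul_smul] at h2
      rw [mul_inv_cancel₀ hδC, one_smul] at h2
      rw [h2]
      congr 1
      push_cast
      ring
    · intro h1
      rw [h1, smul_smul]
      congr 1
      push_cast
      field_simp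
  have haS : a ∈ S := by
    by_contra hcon
    have := hS a hcon
    omega
  have hbS : b ∈ S := by
    by_contra hcon
    have := hS b hcon
    omega
  have ea : a - c = δ * 1 := by omega
  have eb : b - c = δ * (-1) := by omega
  have ec : c - c = δ * 0 := by omega
  have k1 := key 1
  have k0 := key 0
  have km := key (-1)
  rw [← ea, Int.cast_one] at k1
  rw [← ec, Int.cast_zero] at k0
  rw [← eb] at km
  have e1 : ((-1 : ℤ) : ℂ) = -1 := by norm_num
  rw [e1] at km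
  refine core_lt (Or.inl hω) hnd hL hirr hsk ((δ : ℂ)⁻¹ • h) (L.smul_mem _ hhL) hs (by omega) (by omega) ?_ ?_ ?_ ?_ x hx'
  · rw [eq_top_iff, ← hsup]
    refine iSup₂_le fun p hp => ?_
    by_cases h1 : p = a
    · subst h1
      rw [k1]
      exact le_sup_of_le_left le_sup_left
    · by_cases h2 : p = b
      · subst h2
        rw [km]
        exact le_sup_right
      · by_cases h3 : p = c
        · subst h3
          rw [k0]
          exact le_sup_of_le_left le_sup_right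
        · have h4 := hrk p hp
          rw [hr p h1 h3 h2, Submodule.finrank_eq_zero] at h4
          rw [h4]
          exact bot_le
  · rw [k1, hrk a haS]
  · rw [km, hrk b hbS, hba]
  · intro ι _ Φ X l y v hd ht hp
    rw [hcard] at hd
    exact hE Φ X l y v hd ht (hp hω)

/-- The three properties of the Hodge numbers that are used, even weight. -/
def NumsE (n : Type*) [Fintype n] [DecidableEq n] (m : ℤ) (r : ℤ → ℕ) : Prop :=
  5 ≤ Fintype.card n ∧ NI.Indec (2 * m) r ∧ MH.Core n m r ∧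
    ∀ D j : ℕ, 2 ≤ D → 2 ≤ j → Fintype.card n = D ^ j → (∀ p, D ^ (j - 1) ∣ r p) → False

/-- **The conclusions.** -/
theorem concl {m : ℤ} {n : Type*} [Fintype n] [DecidableEq n] {Q : Matrix n n ℚ} {S : Finset ℤ}
    {P : ℤ → Matrix n n ℂ} (H : IsHW (2 * m) Q S P)
    (hEnd : ∀ A : Matrix n n ℚ, (∀ p, toC A * P p = P p * toC A) → ∃ c : ℚ, A = c • (1 : Matrix n n ℚ))
    (hN : NumsE n m (fun p => (P p).rank)) :
    (∀ g : GL n ℂ, g ∈ MT S P ↔ IsGQ (2 * m) Q g) ∧
      ∀ (ℓ : ℕ) [Fact ℓ.Prime] (ι : ℚ_[ℓ] →+* ℂ) (Γ : Subgroup (GL n ℚ_[ℓ])) (R : ℤ → Matrix n n ℂ),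
        IsGalP (2 * m) Q S P (Γ.map (Matrix.GeneralLinearGroup.map ι)) R →
        (∃ D : Subgroup (GL n ℚ), IsMon Q S P D ∧
          D.map (Matrix.GeneralLinearGroup.map (algebraMap ℚ ℚ_[ℓ])) ≤ Γ) ∨
        ((∀ d : ℕ, (∀ p, d ∣ (P p).rank) → d = 1) ∧ SemiS Γ ∧
          ∀ t, IsTateTensor (Γ.map (Matrix.GeneralLinearGroup.map ι)) 1 1 t → MTfix S P 1 1 t) →
        ∀ (a b : ℕ) (t : (Fin a ⊕ Fin b → n) → ℂ),
          IsTateTensor (Γ.map (Matrix.GeneralLinearGroup.map ι)) a b t ↔ MTfix S P a b t := by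
  obtain ⟨h5, hI, hcore, hpow⟩ := hN
  have hne : Nonempty n := Fintype.card_pos_iff.1 (by omega)
  have H' := H.toHS
  have h3 := fun (X : Matrix n n ℂ) (hX : Xᵀ * toC Q + toC Q * X = 0) => so_kills_core H' hEnd hI hcore hpow hX
  refine ⟨fun g => H.MT_full2 h3 g, fun ℓ _ ι Γ R G hAB a b t => ?_⟩
  rcases hAB with ⟨D, hD, hle⟩ | ⟨hgcd, hss, h11⟩
  · refine H.mon55 h3 h5 G hD ?_ a b t
    refine le_trans (le_of_eq ?_) (Subgroup.map_mono hle)
    rw [mapC, Subgroup.map_map]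
    congr 1
    ext g i j
    simp [Matrix.GeneralLinearGroup.map_apply]
  · have hMT : ∀ (g : GL n ℂ) (z : ℂ), (m = 0 → z = 1) →
        (g : Matrix n n ℂ)ᵀ * toC Q * (g : Matrix n n ℂ) = z ^ 2 • toC Q →
        (g : Matrix n n ℂ).det = z ^ Fintype.card n → g ∈ MT S P :=
      fun g z hz hg hd => zso_le_MT H' (fun g hg hd => so_le_MT_of H' h3 hg hd) hz hg hd
    exact tate_iff_core H' G.even (vIrr_of_potIrr ι (potIrr_of_t11 ι hss H hEnd h11)) hMT hI hcore hgcd a b t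

end LT
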