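import Pool.Agent.Helper2.LT.Top
import Pool.Agent.Helper2.HY.Core

/-!
Project LT (MP_b8862a_ag), stage 2 of AG, block L1: from the Lie algebra to the Euclidean data and back.
-/

set_option linter.unusedSectionVars false

open Module LieModule LieAlgebra LieAlgebra.IsKilling AddMonoidAlgebra MTP.MF PF PF.W PF.L TF
open Pool.Agent.Helper54.MT (semisimple_of_diag exists_cartan_end killing_of)

attribute [local instance 100] LieRing.ofAssociativeRing

namespace LT

/-- BLOCK L1: from the Lie algebra to the Euclidean data and back (as `TF.core_lv`, Helper2/HY/Core) -/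
theorem core_lt {V : Type} [AddCommGroup V] [Module ℂ V] [FiniteDimensional ℂ V] {ω : LinearMap.BilinForm ℂ V}
    (hω : ω.IsSymm ∨ ω.IsAlt) (hnd : ω.Nondegenerate) {L : LieSubalgebra ℂ (Module.End ℂ V)} (hsimp : IsSimple ℂ L)
    (hirr : ∀ W : Submodule ℂ V, (∀ x ∈ L, ∀ u ∈ W, x u ∈ W) → W = ⊥ ∨ W = ⊤)
    (hsk : ∀ x ∈ L, ∀ u v, ω (x u) v = -ω u (x v))
    (h : Module.End ℂ V) (hh : h ∈ L) {s : ℕ} (hs : 0 < s) (h2s : 2 * s < finrank ℂ V) (h5 : 5 ≤ finrank ℂ V)
    (hsup : Module.End.eigenspace h 1 ⊔ Module.End.eigenspace h 0 ⊔ Module.End.eigenspace h (-1) = ⊤)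
    (h1 : finrank ℂ (Module.End.eigenspace h 1) = s) (h2 : finrank ℂ (Module.End.eigenspace h (-1)) = s)
    (hE : ∀ {ι : Type} [Fintype ι] (Φ X : Finset (EuclideanSpace ℝ ι)) (l y v : EuclideanSpace ℝ ι),
      AG.D3 Φ X (finrank ℂ V) s l y v → Top Φ X l v → (ω.IsSymm → Par Φ l v) → TypeB Φ X ∨ TypeD Φ X)
    (x : Module.End ℂ V) (hx : ∀ u v, ω (x u) v = -ω u (x v)) : x ∈ L := by
  classical
  have hVn : Nontrivial V := by
    by_contra hcon
    rw [not_nontrivial_iff_subsingleton] at hcon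
    apply LieAlgebra.IsSimple.non_abelian ℂ (L := L)
    refine ⟨fun x y => Subtype.ext ?_⟩
    exact Subsingleton.elim _ _
  have hSy : MTP.IrrSymp ω L.toSubmodule := ⟨fun x hx y hy => L.lie_mem hx hy, fun x hx => hsk x hx, hirr⟩
  have hk : IsKilling ℂ L := killing_of hnd hSy
  have hdiag : (⨆ c : ℂ, Module.End.eigenspace h c) = ⊤ := by
    rw [eq_top_iff, ← hsup]
    refine sup_le (sup_le ?_ ?_) ?_
    · exact le_iSup (fun c : ℂ => Module.End.eigenspace h c) 1
    · exact le_iSup (fun c : ℂ => Module.End.eigenspace h c) 0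
    · exact le_iSup (fun c : ℂ => Module.End.eigenspace h c) (-1)
  obtain ⟨H, hH, hyH⟩ := exists_cartan_end (L := L) ⟨h, hh⟩ (semisimple_of_diag hdiag)
  have hirrR : (rootSystem H).IsIrreducible := inferInstance
  have hne : Nonempty H.root := by
    by_contra hcon
    rw [not_nonempty_iff] at hcon
    have hN : Nontrivial H := RootPairing.IsIrreducible.nontrivial' (rootSystem H)
    have h1 : (⊤ : Submodule ℂ H) = ⊥ := by
      have h2 : (rootSystem H).corootSpan ℂ = ⊤ := RootPairing.IsRootSystem.span_coroot_eq_top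
      rw [← h2, RootPairing.corootSpan, Set.range_eq_empty, Submodule.span_empty]
    exact bot_ne_top h1.symm
  have hirr' : ∀ W : Submodule ℂ V, (∀ x : L, ∀ u ∈ W, ⁅x, u⁆ ∈ W) → W = ⊥ ∨ W = ⊤ :=
    fun W hW => hirr W fun z hz w hw => hW ⟨z, hz⟩ w hw
  have hsk' : ∀ (x : L) (u v : V), ω ⁅x, u⁆ v = - ω u ⁅x, v⁆ := by
    intro x u v
    exact hsk x x.2 u v
  have hfaith : ∀ x : L, (∀ u : V, ⁅x, u⁆ = 0) → x = 0 := by
    intro x hx
    apply Subtype.ext
    ext u
    exact hx u
  obtain ⟨m, ⟨B⟩⟩ := exists_WB (V := V) (H := H) hirr'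
  have hcard : Fintype.card (Fin m) = finrank ℂ V := by
    rw [Module.finrank_eq_card_basis B.v]
  have hI : Nonempty (Fin m) := by
    rw [← Fintype.card_pos_iff, hcard]
    exact finrank_pos
  obtain ⟨y', hy'⟩ : ∃ y' : H, y' = ⟨⟨h, hh⟩, hyH⟩ := ⟨_, rfl⟩
  have hact : ∀ i, h (B.v i) = B.w i y' • B.v i := by
    intro i
    have h1 := B.lie_v i y'
    rw [hy'] at h1 ⊢
    exact h1
  -- the eigenvalues
  have hex : ∀ i, ∃ q : ℤ, (q = -1 ∨ q = 0 ∨ q = 1) ∧ B.w i y' = ((q : ℤ) : ℂ) := by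
    intro i
    by_contra! hcon
    have n1 : (1 : ℂ) ≠ B.w i y' := by
      intro hc
      exact hcon 1 (Or.inr (Or.inr rfl)) (by rw [← hc]; norm_num)
    have n0 : (0 : ℂ) ≠ B.w i y' := by
      intro hc
      exact hcon 0 (Or.inr (Or.inl rfl)) (by rw [← hc]; norm_num)
    have nm : (-1 : ℂ) ≠ B.w i y' := by
      intro hc
      exact hcon (-1) (Or.inl rfl) (by rw [← hc]; norm_num)
    have h1 := Module.End.eigenspaces_iSupIndep h (B.w i y')
    have h2 : (⊤ : Submodule ℂ V) ≤ ⨆ j, ⨆ (_ : j ≠ B.w i y'), Module.End.eigenspace h j := by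
      rw [← hsup]
      refine sup_le (sup_le ?_ ?_) ?_
      · exact le_iSup₂ (f := fun (j : ℂ) (_ : j ≠ B.w i y') => Module.End.eigenspace h j) 1 n1
      · exact le_iSup₂ (f := fun (j : ℂ) (_ : j ≠ B.w i y') => Module.End.eigenspace h j) 0 n0
      · exact le_iSup₂ (f := fun (j : ℂ) (_ : j ≠ B.w i y') => Module.End.eigenspace h j) (-1) nm
    rw [top_le_iff] at h2
    rw [h2, disjoint_top] at h1
    have h3 : B.v i ∈ Module.End.eigenspace h (B.w i y') := by
      rw [Module.End.mem_eigenspace_iff]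
      exact hact i
    rw [h1, Submodule.mem_bot] at h3
    exact B.v.ne_zero i h3
  choose q hq3 hq using hex
  have hρ : ∀ k : ℤ, Fintype.card {i // q i = k} = finrank ℂ (Module.End.eigenspace h (k : ℂ)) := by
    intro k
    rw [finrank_eig_diag B.v h (fun i => B.w i y') hact, Fintype.card_subtype]
    congr 1
    ext i
    rw [Finset.mem_filter, Finset.mem_filter, hq i]
    constructor
    · rintro ⟨-, h2⟩
      exact ⟨Finset.mem_univ _, by rw [h2]⟩
    · rintro ⟨-, h2⟩
      exact ⟨Finset.mem_univ _, by exact_mod_cast h2⟩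
  have c1 : Fintype.card {i // q i = 1} = s := by
    rw [hρ 1, Int.cast_one]
    exact h1
  have c2 : Fintype.card {i // q i = -1} = s := by
    have e1 : ((-1 : ℤ) : ℂ) = -1 := by norm_num
    rw [hρ (-1), e1]
    exact h2
  obtain ⟨l, z, v, hd, htop, hpar⟩ := exists_d3_top B hirr' hfaith hnd hsk' q hq hq3 hs c1 c2 (by rw [hcard]; exact h2s)
  rw [hcard] at hd
  have hA : ¬ TypeA (PF.CC.Ph (rootSystem H)) := by
    intro hA
    rw [← PF.C.PhiS_eq] at hA
    have hh0 : y' ≠ 0 := by
      intro h5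
      have h6 : ∀ i, q i ≠ 1 := by
        intro i hi
        have h7 := hq i
        rw [h5, map_zero, hi] at h7
        norm_num at h7
      have h7 : Fintype.card {i // q i = 1} = 0 := Fintype.card_eq_zero_iff.2 ⟨fun i => h6 i.1 i.2⟩
      omega
    have h4 : ∀ c : ℂ, finrank ℂ (Module.End.eigenspace h c) ≤ 1 := by
      intro c
      have h4 := PF.C.finrank_eig B y' (fun i j hij => (PF.C.typeA_simple B hirr' hA).2 _ hh0 hij) c
      rw [hy'] at h4
      exact h4
    have h6 : finrank ℂ V ≤ finrank ℂ (Module.End.eigenspace h 1) + finrank ℂ (Module.End.eigenspace h 0) +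
        finrank ℂ (Module.End.eigenspace h (-1)) := by
      have e1 := Submodule.finrank_add_le_finrank_add_finrank
        (Module.End.eigenspace h 1 ⊔ Module.End.eigenspace h 0) (Module.End.eigenspace h (-1))
      have e2 := Submodule.finrank_add_le_finrank_add_finrank (Module.End.eigenspace h 1) (Module.End.eigenspace h 0)
      rw [hsup, finrank_top] at e1
      omega
    have h7 := h4 1
    have h8 := h4 0
    have h9 := h4 (-1)
    omega
  have hBD := hE _ _ l z v hd htop hpar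
  rcases hω with hsymm | halt
  · rcases PF.CC.choose_le B hirr' hnd hsk' hBD with h2 | h2
    · exact absurd h2 hA
    · rw [hcard] at h2
      exact PF.CC.full_of_le hsymm hnd L.toSubmodule (fun z hz => hsk z hz) h2 x hx
  · rcases hBD with ht | ht
    · exfalso
      obtain ⟨N, y, hy, c, hc, hX, -⟩ := ht
      obtain ⟨i, hi⟩ := (PF.CC.mem_Xw B).1 ((hX 0).2 (Or.inl rfl))
      have h0 : B.w i = 0 := by
        apply PF.C.toE_inj (PF.C.intl_w B i) PF.C.intl_zero
        rw [toE_w, hi, PF.C.toE_zero]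
      obtain ⟨b⟩ := RootPairing.nonempty_base (rootSystem H)
      obtain ⟨d, hd, hdodd⟩ := odd_rho B hirr' hnd halt hsk' b
      have h1 := hd i
      rw [h0, LinearMap.zero_apply] at h1
      have h2 : d i = 0 := by exact_mod_cast h1.symm
      have h3 := hdodd i
      rw [h2] at h3
      exact absurd h3 (by decide)
    · rw [← XS_eq, ← PF.C.PhiS_eq] at ht
      exact PF.C.typeD_sp B hirr' ht hnd halt hsk' hx

end LT
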