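import Pool.Agent.Helper2.LT.Hodge
import Pool.Agent.Helper2.LT.Dom
import Pool.Agent.Helper21.TF.Long
import Pool.Agent.Helper81.LT.Cls
import Pool.Agent.Helper43.LT.TypeAFin
import Pool.Agent.Helper14.LT.TypeBCD
import Pool.Agent.Helper98.LT.F4
import Pool.Agent.Helper98.LT.G2
import Pool.Agent.Helper98.LT.E8
import Pool.Agent.Helper94.LT.E6Fin
import Pool.Agent.Helper94.LT.E7Fin

/-!
Project LT (MP_b8862a_ag): the assembly for three Hodge numbers in even weight.
-/

set_option linter.unusedSectionVars false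

namespace LT

section
open PF TF PW
variable {E : Type*} [NormedAddCommGroup E] [InnerProductSpace ℝ E] {Φ X : Finset E} {n s : ℕ} {l y v : E}

/-- **The list.** All data of orthogonal modules with the levels `-1`, `0`, `1`. -/
theorem list (h : AG.D3 Φ X n s l y v) (ht : Top Φ X l v) (hp : Par Φ l v) (h5 : 5 ≤ n) :
    TypeB Φ X ∨ TypeD Φ X ∨ Exc s (n - 2 * s) := by
  obtain ⟨y', hy'⟩ := exists_dt h ht hp
  obtain ⟨c, hc0, hNRS⟩ := exists_NRS h.inn.rs
  have h' := hy'.sc hc0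
  have hall : TypeB (PF.sc c Φ) (PF.sc c X) ∨ TypeD (PF.sc c Φ) (PF.sc c X) ∨ Exc s (n - 2 * s) := by
    rcases classify hNRS with ⟨m, u, hm, hu⟩ | ⟨m, e, c', d, h1, h2, h0, he⟩ | ⟨u, z, hu⟩ | ⟨u, hu⟩ | ⟨u, hu⟩ |
      ⟨e, he⟩ | ⟨u, hu⟩
    · exact typeA h' hu hm
    · exact typeBCD h' he h1 h2 h0 h5
    · obtain ⟨rfl, rfl⟩ := typeE6 h' hu
      exact Or.inr (Or.inr (by unfold Exc; tauto))
    · obtain ⟨rfl, rfl⟩ := typeE7 h' hu
      exact Or.inr (Or.inr (by unfold Exc; tauto))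
    · exact (typeE8 h' hu).elim
    · obtain ⟨rfl, rfl⟩ := typeF4 h' he
      exact Or.inr (Or.inr (by unfold Exc; tauto))
    · obtain ⟨rfl, rfl⟩ := typeG2 h' hu
      exact Or.inr (Or.inr (by unfold Exc; tauto))
  rcases hall with h1 | h1 | h1
  · exact Or.inl (h1.of_sc hc0)
  · exact Or.inr (Or.inl (h1.of_sc hc0))
  · exact Or.inr (Or.inr h1)

end

open Matrix Module MH

/-- **The core for three numbers `s, h, s`, even weight.** -/
theorem core_lt3 {n : Type} [Fintype n] [DecidableEq n] {a b c : ℤ} (hab : a + b = 2 * c) (hca : c < a) {r : ℤ → ℕ}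
    (hr : ∀ p, p ≠ a → p ≠ c → p ≠ b → r p = 0) (hba : r b = r a) (hs : 0 < r a) (hh : 0 < r c)
    (hn : Fintype.card n = 2 * r a + r c) (h5 : 5 ≤ Fintype.card n) (hx : ¬ Exc (r a) (r c)) :
    NI.Indec (2 * c) r ∧ MH.Core n c r := by
  constructor
  · obtain ⟨k, hk⟩ : ∃ k : ℤ, k = a - c := ⟨_, rfl⟩
    refine indec_three55 (m := c) (k := k) (by omega) (s := r a) (h := r c) ?_ rfl ?_ ?_
    · rw [show c + k = a by omega]
    · intro p h1 h2 h3
      exact hr p (by omega) h2 (by omega)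
    · intro h
      exact hx (Or.inl h)
  · have hS : ∀ p, p ∉ ({a, c, b} : Finset ℤ) → r p = 0 := by
      intro p hp
      simp only [Finset.mem_insert, Finset.mem_singleton, not_or] at hp
      exact hr p hp.1 hp.2.1 hp.2.2
    refine CoreS.core (S := {a, c, b}) (coreS_lt n hab hca hS hr hba hs hh hn h5 ?_) (by omega) hS
    intro ι _ Φ X l y v hd ht hp
    rcases list hd ht hp (by omega) with h1 | h1 | h1
    · exact Or.inl h1
    · exact Or.inr h1
    · exfalso
      have e1 : Fintype.card n - 2 * r a = r c := by omega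
      rw [e1] at h1
      exact hx h1

/-- **Three Hodge numbers `s, h, s`, even weight.** -/
theorem numsE_lt {n : Type} [Fintype n] [DecidableEq n] {c : ℤ} {Q : Matrix n n ℚ} {S : Finset ℤ} {P : ℤ → Matrix n n ℂ}
    (H : IsHW (2 * c) Q S P) {a b : ℤ} (hab : a + b = 2 * c) (hca : c < a)
    (hP : ∀ p, p ≠ a → p ≠ c → p ≠ b → P p = 0) (hs : 0 < (P a).rank) (hh : 0 < (P c).rank)
    (h5 : 5 ≤ 2 * (P a).rank + (P c).rank) (hx : ¬ Exc (P a).rank (P c).rank) :
    NumsE n c (fun p => (P p).rank) := by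
  have hcard := H.card_three55 (a := a) (b := b) (c := c) (by omega) (by omega) (by omega) hP
  have hbr : (P b).rank = (P a).rank := by
    have e1 := H.rank_refl55 a
    rwa [show 2 * c - a = b by omega] at e1
  have hr : ∀ p, p ≠ a → p ≠ c → p ≠ b → (P p).rank = 0 := fun p pa pc pb => by
    rw [hP p pa pc pb, Matrix.rank_zero]
  have hn : Fintype.card n = 2 * (P a).rank + (P c).rank := by omega
  obtain ⟨h1, h2⟩ := core_lt3 (n := n) hab hca (r := fun p => (P p).rank) hr hbr hs hh hn (by omega) hx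
  refine ⟨by omega, h1, h2, ?_⟩
  intro D j hD hj hDj hdiv
  apply hx
  exact Or.inr (Or.inl ⟨D, j, hj, by omega, hdiv a⟩)

end LT
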