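import Pool.Agent.Helper81.LT.Defs
import Pool.Agent.Helper2.AG.Th
import Pool.Agent.Helper27.TF.A

/-!
Project LT (MP_b8862a_ag), stage 2 of AG: the numbers `s` for which the list `LT.Exc` is larger than the list `AG.Exc` are
`O(X^(2/3))` up to `X`.
-/

set_option linter.unusedSectionVars false

open PW AG

namespace LT

theorem choose_mono {M a b : ℕ} (hab : a ≤ b) (hb : 2 * b ≤ M) : M.choose a ≤ M.choose b := by
  induction b, hab using Nat.le_induction with
  | base => exact le_rfl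
  | succ b _ ih => exact (ih (by omega)).trans (Nat.choose_le_succ_of_lt_half_left (by omega))

theorem two_bd {M : ℕ} (hM : 2 ≤ M) : M ^ 2 ≤ 4 * M.choose 2 := by
  have h := TF.choose_two M
  obtain ⟨m, rfl⟩ : ∃ m, M = m + 2 := ⟨M - 2, by omega⟩
  rw [show m + 2 - 1 = m + 1 by omega] at h
  nlinarith

theorem three_bd {M : ℕ} (hM : 3 ≤ M) : M ^ 3 ≤ 27 * M.choose 3 := by
  have h := TF.choose_three M
  obtain ⟨m, rfl⟩ : ∃ m, M = m + 3 := ⟨M - 3, by omega⟩
  rw [show m + 3 - 1 = m + 2 by omega, show m + 3 - 2 = m + 1 by omega] at h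
  nlinarith [Nat.zero_le (m ^ 3), Nat.zero_le (m ^ 2)]

theorem four_bd {M : ℕ} (hM : 4 ≤ M) : M ^ 4 ≤ 256 * M.choose 4 := by
  have h := TF.choose_four M
  obtain ⟨m, rfl⟩ : ∃ m, M = m + 4 := ⟨M - 4, by omega⟩
  rw [show m + 4 - 1 = m + 3 by omega, show m + 4 - 2 = m + 2 by omega, show m + 4 - 3 = m + 1 by omega] at h
  nlinarith [Nat.zero_le (m ^ 4), Nat.zero_le (m ^ 3), Nat.zero_le (m ^ 2)]

/-- exterior powers of the standard module of `SO` -/
theorem th_four : Th {s | ∃ M i : ℕ, 1 ≤ i ∧ 3 ≤ M ∧ 2 * i + 2 ≤ M ∧ s = M.choose (i + 1)} := by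
  have h1 : Th {s | ∃ M : ℕ, 4 ≤ M ∧ s = M.choose 2} := by
    refine Th.two 4 (fun m _ => m.choose 2) ?_
    rintro s ⟨M, hM, rfl⟩
    exact ⟨M, 0, two_bd (by omega), by omega, rfl⟩
  have h2 : Th {s | ∃ M i : ℕ, 2 ≤ i ∧ 2 * i + 2 ≤ M ∧ s = M.choose (i + 1)} := by
    refine Th.three 27 (fun m i => m.choose (i + 1)) ?_
    rintro s ⟨M, i, hi, hM, rfl⟩
    refine ⟨M, i, ?_, by omega, rfl⟩
    exact (three_bd (by omega)).trans (Nat.mul_le_mul_left _ (choose_mono (by omega) (by omega)))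
  refine Th.mono ?_ (Th.union h1 h2)
  rintro s ⟨M, i, hi, hM, hiM, rfl⟩ -
  by_cases h : i = 1
  · subst h
    exact Or.inl ⟨M, by omega, rfl⟩
  · exact Or.inr ⟨M, i, by omega, hiM, rfl⟩

/-- primitive exterior powers of the standard module of `Sp` -/
theorem th_five : Th {s | ∃ r i : ℕ, Even i ∧ i + 3 ≤ r ∧ s + (2 * r).choose (i + 1) = (2 * r).choose (i + 3)} := by
  refine Th.three 2048 (fun r i => (2 * r).choose (i + 3) - (2 * r).choose (i + 1)) ?_
  rintro s ⟨r, i, hev, hi, hs⟩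
  refine ⟨r, i, ?_, by omega, by show (2 * r).choose (i + 3) - (2 * r).choose (i + 1) = s; omega⟩
  obtain ⟨N, hN⟩ : ∃ N, N = 2 * r := ⟨_, rfl⟩
  rw [← hN] at hs
  -- `s` is at least `C(N, i + 2) / (i + 3)`
  have e1 := Nat.choose_succ_right_eq N (i + 2)
  have e0 := Nat.choose_succ_right_eq N (i + 1)
  have h1 : N.choose (i + 1) ≤ N.choose (i + 2) := choose_mono (by omega) (by omega)
  obtain ⟨u, hu⟩ : ∃ u, N - (i + 2) = (i + 3) + u + 1 := ⟨N - (i + 2) - (i + 3) - 1, by omega⟩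
  rw [hu, show i + 2 + 1 = i + 3 by omega] at e1
  rcases Nat.eq_zero_or_pos i with rfl | hi0
  · -- `i = 0`
    rw [Nat.choose_one_right] at hs
    have h2 := TF.choose_three N
    obtain ⟨a, ha⟩ : ∃ a, r = a + 3 := ⟨r - 3, by omega⟩
    have hN' : N = 2 * a + 6 := by omega
    rw [hN', show 2 * a + 6 - 1 = 2 * a + 5 by omega, show 2 * a + 6 - 2 = 2 * a + 4 by omega] at h2
    rw [hN'] at hs
    rw [ha]
    simp only [zero_add] at hs
    nlinarith [Nat.zero_le (a ^ 3), Nat.zero_le (a ^ 2)]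
  · have hi2 : 2 ≤ i := by
      obtain ⟨q, rfl⟩ := hev
      omega
    have h4 : N.choose 4 ≤ N.choose (i + 2) := choose_mono (by omega) (by omega)
    have h5 := four_bd (M := N) (by omega)
    -- `(i + 3) s ≥ C(N, i + 2)`
    have h6 : N.choose (i + 2) ≤ s * (i + 3) := by
      have e2 : s * (i + 3) + N.choose (i + 1) * (i + 3) = N.choose (i + 2) * (i + 3) + N.choose (i + 2) * (u + 1) := by
        rw [← add_mul, hs, e1]
        ring
      have e3 := Nat.mul_le_mul_right (i + 3) h1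
      have e4 : N.choose (i + 2) ≤ N.choose (i + 2) * (u + 1) := Nat.le_mul_of_pos_right _ (by omega)
      omega
    have h7 : N ^ 4 ≤ 256 * (s * N) := by
      calc N ^ 4 ≤ 256 * N.choose 4 := h5
        _ ≤ 256 * N.choose (i + 2) := Nat.mul_le_mul_left _ h4
        _ ≤ 256 * (s * (i + 3)) := Nat.mul_le_mul_left _ h6
        _ ≤ 256 * (s * N) := Nat.mul_le_mul_left _ (Nat.mul_le_mul_left _ (by omega))
    have h8 : N ^ 3 ≤ 256 * s := by
      have h9 : N ^ 3 * N ≤ 256 * s * N := by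
        calc N ^ 3 * N = N ^ 4 := by ring
          _ ≤ 256 * (s * N) := h7
          _ = 256 * s * N := by ring
      exact Nat.le_of_mul_le_mul_right h9 (by omega)
    have h9 : r ^ 3 ≤ N ^ 3 := Nat.pow_le_pow_left (by omega) 3
    omega

/-- type `A` -/
theorem th_six : Th {s | ∃ M i : ℕ, 2 * i + 3 ≤ M ∧
    s + M.choose (i + 1) * M.choose i = M.choose (i + 1) * M.choose (i + 2)} := by
  refine Th.three 100 (fun M i => M.choose (i + 1) * M.choose (i + 2) - M.choose (i + 1) * M.choose i) ?_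
  rintro s ⟨M, i, hM, hs⟩
  refine ⟨M, i, ?_, by omega, by
    show M.choose (i + 1) * M.choose (i + 2) - M.choose (i + 1) * M.choose i = s
    omega⟩
  have e1 := Nat.choose_succ_right_eq M (i + 1)
  have e0 := Nat.choose_succ_right_eq M i
  obtain ⟨u, hu⟩ : ∃ u, M - (i + 1) = (i + 2) + u := ⟨M - (i + 1) - (i + 2), by omega⟩
  have hu0 : M - i = (i + 1) + (u + 2) := by omega
  rw [hu, show i + 1 + 1 = i + 2 by omega] at e1
  rw [hu0] at e0
  have h1 : M.choose (i + 1) ≤ M.choose (i + 2) := by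
    have h2 : M.choose (i + 1) * (i + 2) ≤ M.choose (i + 2) * (i + 2) := by
      rw [e1]
      exact Nat.mul_le_mul_left _ (by omega)
    exact Nat.le_of_mul_le_mul_right h2 (by omega)
  -- `(i + 1) (C(M, i + 1) - C(M, i)) = C(M, i) (u + 2)`
  obtain ⟨A, hA⟩ : ∃ A, A = M.choose i := ⟨_, rfl⟩
  obtain ⟨B, hB⟩ : ∃ B, B = M.choose (i + 1) := ⟨_, rfl⟩
  obtain ⟨C, hC⟩ : ∃ C, C = M.choose (i + 2) := ⟨_, rfl⟩
  rw [← hA, ← hB] at e0
  rw [← hB, ← hC] at e1 h1
  rw [← hA, ← hB, ← hC] at hs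
  have h2 : B * (2 * A) ≤ s * (i + 1) := by
    have e2 : (s + B * A) * (i + 1) = B * C * (i + 1) := by rw [hs]
    have e3 : B * B * (i + 1) ≤ B * C * (i + 1) := Nat.mul_le_mul_right _ (Nat.mul_le_mul_left _ h1)
    have e4 : B * B * (i + 1) = B * (A * (i + 1)) + B * (A * (u + 2)) := by
      calc B * B * (i + 1) = B * (B * (i + 1)) := by ring
        _ = B * (A * (i + 1 + (u + 2))) := by rw [e0]
        _ = _ := by ring
    have e5 : B * (A * 2) ≤ B * (A * (u + 2)) := Nat.mul_le_mul_left _ (Nat.mul_le_mul_left _ (by omega))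
    have e6 : (s + B * A) * (i + 1) = s * (i + 1) + B * (A * (i + 1)) := by ring
    have e7 : B * (2 * A) = B * (A * 2) := by ring
    omega
  rcases Nat.eq_zero_or_pos i with rfl | hi
  · -- `i = 0`
    simp only [Nat.choose_zero_right, Nat.choose_one_right, zero_add] at hA hB hC
    have h3 := TF.choose_two M
    rw [← hC] at h3
    obtain ⟨m, hm⟩ : ∃ m, M = m + 3 := ⟨M - 3, by omega⟩
    rw [hA, hB, hm] at hs
    rw [hm, show m + 3 - 1 = m + 2 by omega] at h3
    rw [hm]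
    have h4 : 2 * s + 2 * (m + 3) = (m + 3) * ((m + 3) * (m + 2)) := by
      rw [← h3]
      nlinarith
    nlinarith [Nat.zero_le (m ^ 3), Nat.zero_le (m ^ 2)]
  · by_cases hi1 : i = 1
    · subst hi1
      have hA' : A = M := by rw [hA, Nat.choose_one_right]
      have h3 := two_bd (M := M) (by omega)
      rw [show (1 : ℕ) + 1 = 2 by norm_num] at hB
      rw [← hB] at h3
      have h4 : B * M ≤ s := by
        rw [hA'] at h2
        nlinarith
      calc M ^ 3 = M ^ 2 * M := by ring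
        _ ≤ 4 * B * M := Nat.mul_le_mul_right _ h3
        _ = 4 * (B * M) := by ring
        _ ≤ 4 * s := Nat.mul_le_mul_left _ h4
        _ ≤ 100 * s := Nat.mul_le_mul_right _ (by norm_num)
    · have h3 : M.choose 3 ≤ B := by rw [hB]; exact choose_mono (by omega) (by omega)
      have h4 : M.choose 2 ≤ A := by rw [hA]; exact choose_mono (by omega) (by omega)
      have h5 := three_bd (M := M) (by omega)
      have h6 := two_bd (M := M) (by omega)
      have h7 : M ^ 3 * M ^ 2 ≤ 27 * B * (4 * A) :=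
        Nat.mul_le_mul (h5.trans (Nat.mul_le_mul_left _ h3)) (h6.trans (Nat.mul_le_mul_left _ h4))
      have h8 : s * (i + 1) ≤ s * M := Nat.mul_le_mul_left _ (by omega)
      have h9 : M ^ 3 * M ^ 2 ≤ 54 * (s * M) := by
        calc M ^ 3 * M ^ 2 ≤ 27 * B * (4 * A) := h7
          _ = 54 * (B * (2 * A)) := by ring
          _ ≤ 54 * (s * M) := Nat.mul_le_mul_left _ (h2.trans h8)
      have h10 : M ^ 3 * M * M ≤ 54 * s * M := by
        calc M ^ 3 * M * M = M ^ 3 * M ^ 2 := by ring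
          _ ≤ 54 * (s * M) := h9
          _ = 54 * s * M := by ring
      have h11 : M ^ 3 * M ≤ 54 * s := Nat.le_of_mul_le_mul_right h10 (by omega)
      have h12 : M ^ 3 ≤ M ^ 3 * M := Nat.le_mul_of_pos_right _ (by omega)
      omega

/-- the middle exterior power -/
theorem th_seven : Th {s | ∃ k : ℕ, 4 ≤ k ∧ s = (2 * k - 2).choose k} := by
  refine Th.three 27 (fun k _ => (2 * k - 2).choose k) ?_
  rintro s ⟨k, hk, rfl⟩
  refine ⟨k, 0, ?_, by omega, rfl⟩
  by_cases h4 : k = 4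
  · subst h4
    decide
  · have h1 : (2 * k - 2).choose k = (2 * k - 2).choose (k - 2) := by
      rw [← Nat.choose_symm (show k ≤ 2 * k - 2 by omega)]
      congr 1
      omega
    rw [h1]
    have h2 := three_bd (M := 2 * k - 2) (by omega)
    have h3 : (2 * k - 2).choose 3 ≤ (2 * k - 2).choose (k - 2) := choose_mono (by omega) (by omega)
    have h5 : k ^ 3 ≤ (2 * k - 2) ^ 3 := Nat.pow_le_pow_left (by omega) 3
    omega

/-- Siegel type -/
theorem th_eight : Th {s | ∃ r : ℕ, 3 ≤ r ∧ (2 * s = r * (r - 1) ∨ 2 * s = r * (r + 1))} := by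
  refine Th.two 4 (fun r k => if k = 0 then r * (r - 1) / 2 else r * (r + 1) / 2) ?_
  rintro s ⟨r, hr, h | h⟩
  · refine ⟨r, 0, ?_, by omega, ?_⟩
    · obtain ⟨m, rfl⟩ : ∃ m, r = m + 3 := ⟨r - 3, by omega⟩
      rw [show m + 3 - 1 = m + 2 by omega] at h
      nlinarith
    · simp only [if_true]
      omega
  · refine ⟨r, 1, ?_, by omega, ?_⟩
    · nlinarith
    · simp only [one_ne_zero, if_false]
      omega

/-- **The larger list is larger only for few `s`.** -/
theorem th_diff : Th {s | ∃ h, 0 < h ∧ LT.Exc s h ∧ ¬ AG.Exc s h} := by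
  refine Th.mono ?_ (Th.union th_E2 (Th.union th_four (Th.union th_five (Th.union th_six (Th.union th_seven
    (Th.union th_eight (Th.of_le (S := {s | s ≤ 27}) 27 fun s hs => hs)))))))
  rintro s ⟨h, hh, hx, hn⟩ hs
  rcases hx with h1 | ⟨d, k, hk, h1, h2⟩ | ⟨k, l, -, h1, h2⟩ | ⟨M, i, hM, h0, h1, h2⟩ |
    (⟨r, hr, h1, h2⟩ | ⟨r, i, hi, hir, h1, h2⟩) | ⟨M, i, hM, h1, h2⟩ | ⟨k, hk, -, h1, h2⟩ | ⟨r, hr, h1, h2⟩ |
    ⟨h1, h2⟩ | ⟨h1, h2⟩ | ⟨h1, h2⟩ | ⟨h1, h2⟩
  · exact absurd (Or.inl h1) hn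
  · by_cases hk2 : k = 2
    · subst hk2
      obtain ⟨t, ht⟩ := h2
      refine absurd (Or.inr (Or.inl ⟨d, t, ?_, ?_⟩)) hn
      · rw [ht]; norm_num
      · omega
    · left
      have hd : 2 ≤ d := by
        by_contra hcon
        have hd : d = 0 ∨ d = 1 := by omega
        rcases hd with rfl | rfl
        · rw [Nat.zero_pow (by omega)] at h1
          omega
        · rw [one_pow] at h1
          omega
      exact ⟨d, k, hd, by omega, h2, by omega⟩
  · exact absurd (Or.inr (Or.inr (Or.inl ⟨k, l, h1, h2⟩))) hn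
  · by_cases hi : i = 0
    · subst hi
      refine absurd (Or.inr (Or.inr (Or.inr (Or.inl ⟨?_, ?_⟩)))) hn
      · rw [h1, zero_add, Nat.choose_one_right]; omega
      · rw [zero_add, Nat.choose_one_right] at h1
        rw [zero_add, Nat.choose_zero_right] at h2
        have h3 := TF.choose_two M
        rw [h2, h1]
        obtain ⟨m, rfl⟩ : ∃ m, M = m + 1 := ⟨M - 1, by omega⟩
        rw [Nat.add_sub_cancel] at h3
        nlinarith
    · right; left
      exact ⟨M, i, by omega, hM, by omega, h1⟩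
  · refine absurd (Or.inr (Or.inr (Or.inr (Or.inr (Or.inl ⟨by omega, ⟨r, by omega⟩, ?_⟩))))) hn
    rw [h2, h1]
    obtain ⟨m, rfl⟩ : ∃ m, r = m + 1 := ⟨r - 1, by omega⟩
    rw [show 2 * (m + 1) - 1 = 2 * m + 1 by omega]
    ring
  · right; right; left
    exact ⟨r, i, hi, hir, h1⟩
  · right; right; right; left
    exact ⟨M, i, hM, h1⟩
  · right; right; right; right; left
    exact ⟨k, hk, h1⟩
  · right; right; right; right; right; left
    exact ⟨r, hr, h1⟩
  · exact absurd (Or.inr (Or.inr (Or.inr (Or.inr (Or.inr (Or.inl ⟨h1, h2⟩)))))) hn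
  · right; right; right; right; right; right
    show s ≤ 27
    omega
  · right; right; right; right; right; right
    show s ≤ 27
    omega
  · right; right; right; right; right; right
    show s ≤ 27
    omega

end LT
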